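import Pool.Agent.H34.FS.Targets

/-!
# Row CNW: the number of the triples `(v, w, y)`
-/

set_option autoImplicit false

open Finset Pool.Agent.H32.RQ Pool.Agent.H34.FQ

namespace Pool.Agent.H46.HFS

open Pool.Agent.H34.FS

theorem cardline (μ t : ℤ) (D B : ℕ) (hμ : μ ≠ 0) (hd : μ.natAbs ≤ D) :
    ((Icc (-(B : ℤ)) B).filter fun m => |m * μ + t| ≤ D).card ≤ 3 * D / μ.natAbs := by
  classical
  set s := (Icc (-(B : ℤ)) B).filter fun m => |m * μ + t| ≤ D with hs
  have hpos : 0 < μ.natAbs := Int.natAbs_pos.mpr hμ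
  rcases s.eq_empty_or_nonempty with h0 | h0
  · rw [h0]
    simp
  · obtain ⟨m0, hm0, hmin⟩ := s.exists_min_image id h0
    have hsub : s ⊆ Icc m0 (m0 + ((2 * D / μ.natAbs : ℕ) : ℤ)) := by
      intro m hm
      have h1 : m0 ≤ m := hmin m hm
      rw [Finset.mem_Icc]
      refine ⟨h1, ?_⟩
      have h2 : |m * μ + t| ≤ D := (Finset.mem_filter.mp hm).2
      have h3 : |m0 * μ + t| ≤ D := (Finset.mem_filter.mp hm0).2
      have h4 : |(m - m0) * μ| ≤ 2 * D := by
        have : (m - m0) * μ = (m * μ + t) - (m0 * μ + t) := by ring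
        rw [this]
        calc |(m * μ + t) - (m0 * μ + t)| ≤ |m * μ + t| + |m0 * μ + t| := abs_sub _ _
          _ ≤ 2 * D := by linarith
      have h5 : (m - m0).natAbs * μ.natAbs ≤ 2 * D := by
        have := h4
        rw [Int.abs_eq_natAbs, Int.natAbs_mul] at this
        exact_mod_cast this
      have h6 : (m - m0).natAbs ≤ 2 * D / μ.natAbs := (Nat.le_div_iff_mul_le hpos).mpr h5
      have h7 : ((m - m0).natAbs : ℤ) = m - m0 := Int.natAbs_of_nonneg (by linarith)
      have h8 : ((m - m0).natAbs : ℤ) ≤ ((2 * D / μ.natAbs : ℕ) : ℤ) := by exact_mod_cast h6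
      linarith
    have h9 := Finset.card_le_card hsub
    rw [Int.card_Icc] at h9
    have h10 : ∀ n : ℕ, (m0 + (n : ℤ) + 1 - m0).toNat = n + 1 := by
      intro n
      omega
    rw [h10] at h9
    refine h9.trans ?_
    rw [← Nat.add_div_right _ hpos]
    exact Nat.div_le_div_right (by omega)

theorem prod_two {r : ℕ} (a b : Fin r) (hab : a ≠ b) (N : ℕ) :
    (∏ k : Fin r, if k = a ∨ k = b then 1 else N) = N ^ (r - 2) := by
  classical
  rw [Finset.prod_ite, Finset.prod_const_one, Finset.prod_const, one_mul]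
  congr 1
  have h1 : (univ.filter fun k : Fin r => ¬ (k = a ∨ k = b)) = univ \ {a, b} := by
    ext k
    simp
  rw [h1, Finset.card_sdiff_of_subset (Finset.subset_univ _), Finset.card_pair hab,
    Finset.card_univ, Fintype.card_fin]

theorem Ycount {r : ℕ} (B D : ℕ) (v w : Fin r → ℤ) (a b : Fin r) (h0 : mnr v w a b ≠ 0)
    (hd : (mnr v w a b).natAbs ≤ D) :
    ((vb r B).filter fun y => ∀ i j k, |d3 v w y i j k| ≤ D).card ≤
      (3 * D / (mnr v w a b).natAbs) ^ (r - 2) * (2 * B + 1) ^ 2 := by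
  classical
  have hab : a ≠ b := by
    intro h
    apply h0
    rw [h]
    simp [mnr]
  set s := (vb r B).filter fun y => ∀ i j k, |d3 v w y i j k| ≤ D with hs
  set N := 3 * D / (mnr v w a b).natAbs with hN
  have himg : (s.image fun y => (y a, y b)).card ≤ (2 * B + 1) ^ 2 := by
    have hsub : (s.image fun y => (y a, y b)) ⊆ (Icc (-(B : ℤ)) B) ×ˢ (Icc (-(B : ℤ)) B) := by
      intro q hq
      obtain ⟨y, hy, rfl⟩ := Finset.mem_image.mp hq
      have hy' := (Finset.mem_filter.mp hy).1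
      unfold vb at hy'
      rw [Fintype.mem_piFinset] at hy'
      exact Finset.mem_product.mpr ⟨hy' a, hy' b⟩
    refine (Finset.card_le_card hsub).trans ?_
    rw [Finset.card_product, Int.card_Icc]
    have : ((B : ℤ) + 1 - -(B : ℤ)).toNat = 2 * B + 1 := by omega
    rw [this, sq]
  have hfib : ∀ q ∈ s.image fun y => (y a, y b),
      (s.filter fun y => (y a, y b) = q).card ≤ N ^ (r - 2) := by
    rintro ⟨p, q⟩ -
    have hsub : (s.filter fun y => (y a, y b) = (p, q)) ⊆
        Fintype.piFinset fun k => if k = a then {p} else if k = b then {q} else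
          (Icc (-(B : ℤ)) B).filter fun m => |m * mnr v w a b +
            (q * (v k * w a - v a * w k) + p * (v b * w k - v k * w b))| ≤ D := by
      intro y hy
      obtain ⟨hy1, hy2⟩ := Finset.mem_filter.mp hy
      obtain ⟨hy3, hy4⟩ := Finset.mem_filter.mp hy1
      have hya : y a = p := congrArg Prod.fst hy2
      have hyb : y b = q := congrArg Prod.snd hy2
      unfold vb at hy3
      rw [Fintype.mem_piFinset] at hy3
      rw [Fintype.mem_piFinset]
      intro k
      by_cases hka : k = a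
      · rw [if_pos hka, hka, hya]
        exact Finset.mem_singleton_self _
      · rw [if_neg hka]
        by_cases hkb : k = b
        · rw [if_pos hkb, hkb, hyb]
          exact Finset.mem_singleton_self _
        · rw [if_neg hkb, Finset.mem_filter]
          refine ⟨hy3 k, ?_⟩
          have h1 := hy4 a b k
          have h2 : d3 v w y a b k = y k * mnr v w a b +
              (q * (v k * w a - v a * w k) + p * (v b * w k - v k * w b)) := by
            rw [← hya, ← hyb]
            unfold d3 mnr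
            ring
          rwa [h2] at h1
    refine (Finset.card_le_card hsub).trans ?_
    rw [Fintype.card_piFinset, ← prod_two a b hab N]
    apply Finset.prod_le_prod'
    intro k _
    by_cases hka : k = a
    · simp [hka]
    · by_cases hkb : k = b
      · rw [if_neg hka, if_pos hkb, if_pos (Or.inr hkb)]
        simp
      · rw [if_neg hka, if_neg hkb, if_neg (by simp [hka, hkb])]
        exact cardline _ _ D B h0 hd
  refine (Finset.card_le_mul_card_image s _ hfib).trans ?_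
  exact Nat.mul_le_mul_left _ himg

/-- the pairs -/
noncomputable def PP (r c B D : ℕ) : Finset ((Fin r → ℤ) × (Fin r → ℤ)) :=
  open Classical in
  (vb r (2 * B) ×ˢ vb r (2 * c * B + 1)).filter fun q => (∀ i, |q.2 i| ≤ c * |q.1 i| + 1) ∧
    (∃ i j, mnr q.1 q.2 i j ≠ 0) ∧ ∀ i j, |mnr q.1 q.2 i j| ≤ D

theorem mnr_le_dm {r : ℕ} (v w : Fin r → ℤ) (i j : Fin r) : (mnr v w i j).natAbs ≤ dm v w := by
  unfold dm
  exact Finset.le_sup (f := fun p : Fin r × Fin r => (mnr v w p.1 p.2).natAbs)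
    (Finset.mem_univ (i, j))

theorem PP_count (hPAI : T_PAI) (r c B D δ : ℕ) (_hr : 1 ≤ r) :
    ((PP r c B D).filter fun q => dm q.1 q.2 ≤ δ).card ≤
      r * ((2 * c + 3) * (2 * (2 * B) ^ 2 * (9 * δ) ^ (r - 1))) := by
  classical
  set S : Fin r → Set ((Fin r → ℤ) × (Fin r → ℤ)) := fun i =>
    {q : (Fin r → ℤ) × (Fin r → ℤ) | q.1 i ≠ 0 ∧ |q.1 i| ≤ (2 * B : ℕ) ∧
      (∀ j, |q.1 j| ≤ |q.1 i|) ∧ 0 ≤ q.2 i ∧ q.2 i < |q.1 i| ∧
      (∀ j, |mnr q.1 q.2 i j| ≤ δ) ∧ ∃ j, mnr q.1 q.2 i j ≠ 0} with hS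
  have hfin : ∀ i, (S i).Finite := fun i => (hPAI r i (2 * B) δ).1
  have hcard : ∀ i, (S i).ncard ≤ 2 * (2 * B) ^ 2 * (9 * δ) ^ (r - 1) :=
    fun i => (hPAI r i (2 * B) δ).2
  have hsub : ((PP r c B D).filter fun q => dm q.1 q.2 ≤ δ) ⊆
      (univ : Finset (Fin r)).biUnion fun i => (Icc (-((c : ℤ) + 1)) ((c : ℤ) + 1)).biUnion fun k =>
        ((hfin i).toFinset).image fun q => (q.1, fun j => q.2 j + k * q.1 j) := by
    rintro ⟨v, w⟩ hq
    obtain ⟨hq1, hq2⟩ := Finset.mem_filter.mp hq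
    unfold PP at hq1
    obtain ⟨hq3, hq4, hq5, -⟩ := Finset.mem_filter.mp hq1
    obtain ⟨hv, -⟩ := Finset.mem_product.mp hq3
    unfold vb at hv
    rw [Fintype.mem_piFinset] at hv
    obtain ⟨a, b, hab⟩ := hq5
    simp only at hq2 hq4 hab hv
    obtain ⟨i, -, hi⟩ := Finset.exists_max_image (univ : Finset (Fin r)) (fun i => |v i|)
      ⟨a, Finset.mem_univ _⟩
    have hvi : v i ≠ 0 := by
      intro h
      have h1 : ∀ j, v j = 0 := by
        intro j
        have := hi j (Finset.mem_univ _)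
        rw [h, abs_zero] at this
        exact abs_eq_zero.mp (le_antisymm this (abs_nonneg _))
      apply hab
      unfold mnr
      rw [h1 a, h1 b]
      ring
    have hvpos : 0 < |v i| := abs_pos.mpr hvi
    rw [Finset.mem_biUnion]
    refine ⟨i, Finset.mem_univ _, ?_⟩
    rw [Finset.mem_biUnion]
    refine ⟨w i / v i, ?_, ?_⟩
    · have h1 := Int.emod_nonneg (w i) hvi
      have h2 := Int.emod_lt_abs (w i) hvi
      have h3 := Int.emod_add_mul_ediv (w i) (v i)
      have h4 := hq4 i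
      have h5 : |v i * (w i / v i)| ≤ ((c : ℤ) + 1) * |v i| := by
        have : v i * (w i / v i) = w i - w i % v i := by linarith
        rw [this]
        calc |w i - w i % v i| ≤ |w i| + |w i % v i| := abs_sub _ _
          _ ≤ ((c : ℤ) + 1) * |v i| := by
            rw [abs_of_nonneg h1]
            linarith
      rw [abs_mul, mul_comm] at h5
      have h6 := le_of_mul_le_mul_right h5 hvpos
      rw [Finset.mem_Icc]
      exact abs_le.mp h6
    · rw [Finset.mem_image]
      refine ⟨(v, fun j => w j - w i / v i * v j), ?_, ?_⟩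
      · rw [Set.Finite.mem_toFinset]
        have hmn : ∀ j, mnr v (fun j => w j - w i / v i * v j) i j = mnr v w i j := by
          intro j
          unfold mnr
          ring
        have h3 := Int.emod_add_mul_ediv (w i) (v i)
        have h4 : w i - w i / v i * v i = w i % v i := by linarith
        refine ⟨hvi, ?_, fun j => hi j (Finset.mem_univ _), ?_, ?_, ?_, ?_⟩
        · have := Finset.mem_Icc.mp (hv i)
          exact abs_le.mpr ⟨by exact_mod_cast this.1, by exact_mod_cast this.2⟩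
        · change 0 ≤ w i - w i / v i * v i
          rw [h4]
          exact Int.emod_nonneg (w i) hvi
        · change w i - w i / v i * v i < |v i|
          rw [h4]
          exact Int.emod_lt_abs (w i) hvi
        · intro j
          change |mnr v (fun j => w j - w i / v i * v j) i j| ≤ δ
          rw [hmn, Int.abs_eq_natAbs]
          exact_mod_cast (mnr_le_dm v w i j).trans hq2
        · by_contra hcon
          push Not at hcon
          have h5 : ∀ j, v i * w j = v j * w i := by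
            intro j
            have := hcon j
            change mnr v (fun j => w j - w i / v i * v j) i j = 0 at this
            rw [hmn] at this
            unfold mnr at this
            linarith
          apply hab
          have h6 : v i * mnr v w a b = 0 := by
            unfold mnr
            have e1 := h5 a
            have e2 := h5 b
            calc v i * (v a * w b - v b * w a) = v a * (v i * w b) - v b * (v i * w a) := by ring
              _ = 0 := by rw [e1, e2]; ring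
          exact (mul_eq_zero.mp h6).resolve_left hvi
      · ext j
        · rfl
        · simp
  refine (Finset.card_le_card hsub).trans ?_
  refine Finset.card_biUnion_le.trans ?_
  have hone : ∀ i ∈ (univ : Finset (Fin r)),
      ((Icc (-((c : ℤ) + 1)) ((c : ℤ) + 1)).biUnion fun k =>
        ((hfin i).toFinset).image fun q : (Fin r → ℤ) × (Fin r → ℤ) =>
          (q.1, fun j => q.2 j + k * q.1 j)).card ≤
        (2 * c + 3) * (2 * (2 * B) ^ 2 * (9 * δ) ^ (r - 1)) := by
    intro i _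
    refine Finset.card_biUnion_le.trans ?_
    have h1 : ∀ k ∈ Icc (-((c : ℤ) + 1)) ((c : ℤ) + 1),
        (((hfin i).toFinset).image fun q : (Fin r → ℤ) × (Fin r → ℤ) =>
          (q.1, fun j => q.2 j + k * q.1 j)).card ≤ 2 * (2 * B) ^ 2 * (9 * δ) ^ (r - 1) := by
      intro k _
      refine Finset.card_image_le.trans ?_
      rw [← Set.ncard_eq_toFinset_card _ (hfin i)]
      exact hcard i
    refine (Finset.sum_le_card_nsmul _ _ _ h1).trans ?_
    rw [Int.card_Icc, smul_eq_mul]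
    have h2 : ((c : ℤ) + 1 + 1 - -((c : ℤ) + 1)).toNat = 2 * c + 3 := by omega
    rw [h2]
  refine (Finset.sum_le_card_nsmul _ _ _ hone).trans ?_
  rw [Finset.card_univ, Fintype.card_fin, smul_eq_mul]

theorem telescope (d D : ℕ) (hd : 1 ≤ d) (hD : d ≤ D) :
    (1 : ℝ) / d = ∑ δ ∈ Icc 1 D, (if d ≤ δ then (1 : ℝ) / (δ * (δ + 1)) else 0) +
      1 / ((D : ℝ) + 1) := by
  induction D, hD using Nat.le_induction with
  | base =>
    have h1 : ∑ δ ∈ Icc 1 d, (if d ≤ δ then (1 : ℝ) / (δ * (δ + 1)) else 0) =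
        1 / ((d : ℝ) * (d + 1)) := by
      rw [Finset.sum_eq_single d]
      · simp
      · intro δ hδ hne
        rw [if_neg]
        have := Finset.mem_Icc.mp hδ
        omega
      · intro h
        exact absurd (Finset.mem_Icc.mpr ⟨hd, le_refl _⟩) h
    rw [h1]
    have : (0 : ℝ) < d := by exact_mod_cast hd
    field_simp
    ring
  | succ D hD ih =>
    rw [ih, Finset.sum_Icc_succ_top (by omega : 1 ≤ D + 1), if_pos (by omega : d ≤ D + 1)]
    push_cast
    have : (0 : ℝ) < (D : ℝ) + 1 := by positivity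
    have h2 : (0 : ℝ) < (D : ℝ) + 1 + 1 := by positivity
    field_simp
    ring

theorem sum_inv (r D : ℕ) (hr : 3 ≤ r) {ι : Type} (P : Finset ι) (d : ι → ℕ)
    (K : ℝ) (hK : 0 ≤ K) (hd : ∀ q ∈ P, 1 ≤ d q ∧ d q ≤ D)
    (hN : ∀ δ : ℕ, ((P.filter fun q => d q ≤ δ).card : ℝ) ≤ K * (δ : ℝ) ^ (r - 1)) :
    ∑ q ∈ P, (1 : ℝ) / d q ≤ 2 * K * (D : ℝ) ^ (r - 2) := by
  classical
  have h1 : ∑ q ∈ P, (1 : ℝ) / d q = ∑ δ ∈ Icc 1 D, (1 : ℝ) / (δ * (δ + 1)) *
      ((P.filter fun q => d q ≤ δ).card : ℝ) + (P.card : ℝ) * (1 / ((D : ℝ) + 1)) := by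
    rw [Finset.sum_congr rfl fun q hq => telescope (d q) D (hd q hq).1 (hd q hq).2,
      Finset.sum_add_distrib, Finset.sum_comm, Finset.sum_const, nsmul_eq_mul]
    congr 1
    apply Finset.sum_congr rfl
    intro δ _
    rw [← Finset.sum_filter, Finset.sum_const, nsmul_eq_mul, mul_comm]
  rw [h1]
  have hD0 : (0 : ℝ) ≤ D := Nat.cast_nonneg _
  have hterm : ∀ δ ∈ Icc 1 D, (1 : ℝ) / (δ * (δ + 1)) *
      ((P.filter fun q => d q ≤ δ).card : ℝ) ≤ K * (D : ℝ) ^ (r - 3) := by
    intro δ hδ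
    obtain ⟨hδ1, hδ2⟩ := Finset.mem_Icc.mp hδ
    have hδ' : (0 : ℝ) < δ := by exact_mod_cast hδ1
    have h2 := hN δ
    have h3 : (δ : ℝ) ^ (r - 1) = (δ : ℝ) ^ (r - 3) * ((δ : ℝ) * δ) := by
      rw [← sq, ← pow_add]
      congr 1
      omega
    calc (1 : ℝ) / (δ * (δ + 1)) * ((P.filter fun q => d q ≤ δ).card : ℝ)
        ≤ (1 : ℝ) / (δ * (δ + 1)) * (K * (δ : ℝ) ^ (r - 1)) :=
          mul_le_mul_of_nonneg_left h2 (by positivity)
      _ ≤ (1 : ℝ) / (δ * δ) * (K * (δ : ℝ) ^ (r - 1)) := by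
          apply mul_le_mul_of_nonneg_right _ (by positivity)
          apply one_div_le_one_div_of_le (by positivity)
          nlinarith
      _ = K * (δ : ℝ) ^ (r - 3) := by
          rw [h3]
          field_simp
      _ ≤ K * (D : ℝ) ^ (r - 3) := by
          apply mul_le_mul_of_nonneg_left _ hK
          exact pow_le_pow_left₀ hδ'.le (by exact_mod_cast hδ2) _
  have hsum : ∑ δ ∈ Icc 1 D, (1 : ℝ) / (δ * (δ + 1)) *
      ((P.filter fun q => d q ≤ δ).card : ℝ) ≤ K * (D : ℝ) ^ (r - 2) := by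
    refine (Finset.sum_le_card_nsmul _ _ _ hterm).trans ?_
    rw [Nat.card_Icc, nsmul_eq_mul, Nat.add_sub_cancel]
    have : (D : ℝ) ^ (r - 2) = (D : ℝ) ^ (r - 3) * D := by
      rw [← pow_succ]
      congr 1
      omega
    rw [this]
    apply le_of_eq
    ring
  have hlast : (P.card : ℝ) * (1 / ((D : ℝ) + 1)) ≤ K * (D : ℝ) ^ (r - 2) := by
    have h4 : (P.filter fun q => d q ≤ D) = P := by
      apply Finset.filter_true_of_mem
      intro q hq
      exact (hd q hq).2
    have h5 := hN D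
    rw [h4] at h5
    have h6 : (D : ℝ) ^ (r - 1) = (D : ℝ) ^ (r - 2) * D := by
      rw [← pow_succ]
      congr 1
      omega
    rw [h6] at h5
    have h7 : (0 : ℝ) < (D : ℝ) + 1 := by positivity
    rw [mul_one_div, div_le_iff₀ h7]
    calc (P.card : ℝ) ≤ K * ((D : ℝ) ^ (r - 2) * D) := h5
      _ ≤ K * (D : ℝ) ^ (r - 2) * ((D : ℝ) + 1) := by
        have : 0 ≤ K * (D : ℝ) ^ (r - 2) := by positivity
        nlinarith
  linarith

theorem pf_CNW (hPAI : T_PAI) : T_CNW := by
  classical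
  intro r c hr
  refine ⟨9 * 3 ^ (r - 2) * (2 * (r * ((2 * c + 3) * (8 * 9 ^ (r - 1))))), by positivity, ?_⟩
  intro B D hB hD
  set K : ℝ := r * ((2 * c + 3) * (8 * 9 ^ (r - 1))) * (B : ℝ) ^ 2 with hK
  have hK0 : 0 ≤ K := by positivity
  have hBr : (1 : ℝ) ≤ B := by exact_mod_cast hB
  have hDr : (1 : ℝ) ≤ D := by exact_mod_cast hD
  -- each pair
  have hpair : ∀ q ∈ PP r c B D, 1 ≤ dm q.1 q.2 ∧ dm q.1 q.2 ≤ D := by
    rintro ⟨v, w⟩ hq
    unfold PP at hq
    obtain ⟨-, -, ⟨a, b, hab⟩, h2⟩ := Finset.mem_filter.mp hq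
    refine ⟨(Int.natAbs_pos.mpr hab).trans_le (mnr_le_dm v w a b), ?_⟩
    unfold dm
    apply Finset.sup_le
    rintro ⟨i, j⟩ -
    have := h2 i j
    rw [Int.abs_eq_natAbs] at this
    exact_mod_cast this
  have hY : ∀ q ∈ PP r c B D,
      (((vb r B).filter fun y => ∀ i j k, |d3 q.1 q.2 y i j k| ≤ D).card : ℝ) ≤
        9 * (B : ℝ) ^ 2 * (3 * (D : ℝ)) ^ (r - 2) * (1 / (dm q.1 q.2 : ℝ)) := by
    rintro ⟨v, w⟩ hq
    obtain ⟨h1, h2⟩ := hpair _ hq
    simp only at h1 h2 ⊢
    obtain ⟨⟨a, b⟩, -, hab⟩ : ∃ p ∈ (univ : Finset (Fin r × Fin r)),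
        (univ : Finset (Fin r × Fin r)).sup (fun p => (mnr v w p.1 p.2).natAbs) =
          (mnr v w p.1 p.2).natAbs := by
      apply Finset.exists_mem_eq_sup
      exact ⟨(⟨0, by omega⟩, ⟨0, by omega⟩), Finset.mem_univ _⟩
    have hdm : dm v w = (mnr v w a b).natAbs := hab
    have h0 : mnr v w a b ≠ 0 := by
      intro h
      rw [hdm, h] at h1
      simp at h1
    have h3 := Ycount B D v w a b h0 (hdm ▸ h2)
    rw [← hdm] at h3
    set d := dm v w with hdd
    have hd0 : (0 : ℝ) < d := by exact_mod_cast h1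
    have h4 : (3 * D / d) ^ (r - 2) * d ≤ (3 * D) ^ (r - 2) := by
      calc (3 * D / d) ^ (r - 2) * d ≤ (3 * D / d) ^ (r - 2) * d ^ (r - 2) :=
            Nat.mul_le_mul_left _ (Nat.le_self_pow (by omega) d)
        _ = (3 * D / d * d) ^ (r - 2) := (mul_pow _ _ _).symm
        _ ≤ (3 * D) ^ (r - 2) := Nat.pow_le_pow_left (Nat.div_mul_le_self _ _) _
    have h5 : (((vb r B).filter fun y => ∀ i j k, |d3 v w y i j k| ≤ D).card : ℝ) * d ≤
        (3 * (D : ℝ)) ^ (r - 2) * (2 * (B : ℝ) + 1) ^ 2 := by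
      have h6 : ((vb r B).filter fun y => ∀ i j k, |d3 v w y i j k| ≤ D).card * d ≤
          (3 * D) ^ (r - 2) * (2 * B + 1) ^ 2 := by
        calc ((vb r B).filter fun y => ∀ i j k, |d3 v w y i j k| ≤ D).card * d
            ≤ (3 * D / d) ^ (r - 2) * (2 * B + 1) ^ 2 * d := Nat.mul_le_mul_right _ h3
          _ = (3 * D / d) ^ (r - 2) * d * (2 * B + 1) ^ 2 := by ring
          _ ≤ (3 * D) ^ (r - 2) * (2 * B + 1) ^ 2 := Nat.mul_le_mul_right _ h4
      exact_mod_cast h6
    rw [mul_one_div, le_div_iff₀ hd0]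
    refine h5.trans ?_
    have h7 : (2 * (B : ℝ) + 1) ^ 2 ≤ 9 * (B : ℝ) ^ 2 := by nlinarith
    calc (3 * (D : ℝ)) ^ (r - 2) * (2 * (B : ℝ) + 1) ^ 2
        ≤ (3 * (D : ℝ)) ^ (r - 2) * (9 * (B : ℝ) ^ 2) :=
          mul_le_mul_of_nonneg_left h7 (by positivity)
      _ = 9 * (B : ℝ) ^ 2 * (3 * (D : ℝ)) ^ (r - 2) := by ring
  -- exchange
  have hswap : ∑ v ∈ vb r (2 * B), ∑ y ∈ vb r B, ((TW c B D v y).card : ℝ) =
      ∑ q ∈ PP r c B D,
        (((vb r B).filter fun y => ∀ i j k, |d3 q.1 q.2 y i j k| ≤ D).card : ℝ) := by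
    have e1 : ∀ v ∈ vb r (2 * B), ∑ y ∈ vb r B, ((TW c B D v y).card : ℝ) =
        ∑ w ∈ vb r (2 * c * B + 1), if (∀ i, |w i| ≤ c * |v i| + 1) ∧
          (∃ i j, mnr v w i j ≠ 0) ∧ (∀ i j, |mnr v w i j| ≤ D) then
          (((vb r B).filter fun y => ∀ i j k, |d3 v w y i j k| ≤ D).card : ℝ) else 0 := by
      intro v _
      have e2 : ∀ y ∈ vb r B, ((TW c B D v y).card : ℝ) = ∑ w ∈ vb r (2 * c * B + 1),
          if ((∀ i, |w i| ≤ c * |v i| + 1) ∧ (∃ i j, mnr v w i j ≠ 0) ∧
            (∀ i j, |mnr v w i j| ≤ D) ∧ ∀ i j k, |d3 v w y i j k| ≤ D) then (1 : ℝ) else 0 := by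
        intro y _
        unfold TW
        rw [Finset.card_filter]
        push_cast
        rfl
      rw [Finset.sum_congr rfl e2, Finset.sum_comm]
      apply Finset.sum_congr rfl
      intro w _
      by_cases hw : (∀ i, |w i| ≤ c * |v i| + 1) ∧ (∃ i j, mnr v w i j ≠ 0) ∧
          (∀ i j, |mnr v w i j| ≤ D)
      · rw [if_pos hw, Finset.card_filter]
        push_cast
        apply Finset.sum_congr rfl
        intro y _
        by_cases hy : ∀ i j k, |d3 v w y i j k| ≤ D
        · rw [if_pos hy, if_pos ⟨hw.1, hw.2.1, hw.2.2, hy⟩]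
        · rw [if_neg hy, if_neg fun h => hy h.2.2.2]
      · rw [if_neg hw]
        apply Finset.sum_eq_zero
        intro y _
        rw [if_neg fun h => hw ⟨h.1, h.2.1, h.2.2.1⟩]
    rw [Finset.sum_congr rfl e1]
    unfold PP
    rw [Finset.sum_filter, Finset.sum_product]
  have hcount : ∀ δ : ℕ, (((PP r c B D).filter fun q => dm q.1 q.2 ≤ δ).card : ℝ) ≤
      K * (δ : ℝ) ^ (r - 1) := by
    intro δ
    have h1 := PP_count hPAI r c B D δ (by omega)
    have h2 : (((PP r c B D).filter fun q => dm q.1 q.2 ≤ δ).card : ℝ) ≤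
        r * ((2 * c + 3) * (2 * (2 * (B : ℝ)) ^ 2 * (9 * (δ : ℝ)) ^ (r - 1))) := by
      exact_mod_cast h1
    refine h2.trans (le_of_eq ?_)
    rw [hK, mul_pow]
    ring
  have hinv := sum_inv r D hr (PP r c B D) (fun q => dm q.1 q.2) K hK0 hpair hcount
  rw [hswap]
  refine (Finset.sum_le_sum hY).trans ?_
  rw [← Finset.mul_sum]
  calc 9 * (B : ℝ) ^ 2 * (3 * (D : ℝ)) ^ (r - 2) * ∑ q ∈ PP r c B D, 1 / (dm q.1 q.2 : ℝ)
      ≤ 9 * (B : ℝ) ^ 2 * (3 * (D : ℝ)) ^ (r - 2) * (2 * K * (D : ℝ) ^ (r - 2)) :=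
        mul_le_mul_of_nonneg_left hinv (by positivity)
    _ = 9 * 3 ^ (r - 2) * (2 * (r * ((2 * c + 3) * (8 * 9 ^ (r - 1))))) * (B : ℝ) ^ 4 *
        (D : ℝ) ^ (2 * r - 4) := by
        have : (D : ℝ) ^ (2 * r - 4) = (D : ℝ) ^ (r - 2) * (D : ℝ) ^ (r - 2) := by
          rw [← pow_add]
          congr 1
          omega
        rw [this, hK, mul_pow]
        ring

end Pool.Agent.H46.HFS
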